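import Pool.Agent.H328R3.Blum
import Mathlib

/-!
A compact linearly ordered topological space without the Blumberg property, in ZFC.
-/

set_option autoImplicit false

namespace Pool.Agent.Results.MP_184855_gt.CompactLots

/-- There is a nonempty compact linearly ordered space `X` (with the order topology) and a
function `f : X → ℝ` which is not continuous on any dense subset of `X`. -/
theorem result : ∃ (X : Type) (_ : LinearOrder X) (_ : TopologicalSpace X),
    OrderTopology X ∧ CompactSpace X ∧ Nonempty X ∧
      ∃ f : X → ℝ, ∀ D : Set X, Dense D → ¬ Continuous (D.restrict f) := by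
  obtain ⟨A, h1, h2⟩ := Pool.Agent.H328R3.Blum.exists_split
  obtain ⟨f, hf⟩ := Pool.Agent.H328R3.Blum.not_blumberg h1 h2
  refine ⟨Pool.Agent.H328R3.Blum.K A, inferInstance, inferInstance, inferInstance,
    Pool.Agent.H328R3.Blum.compact_of_lub Pool.Agent.H328R3.Blum.exists_lub, ?_, f, ?_⟩
  · obtain ⟨p⟩ := Pool.Agent.H328R3.Blum.exists_node h1
    exact ⟨p.t⟩
  · intro D hD hc
    exact hf D hD (continuousOn_iff_continuous_restrict.2 hc)

end Pool.Agent.Results.MP_184855_gt.CompactLots
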